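import Pool.Agent.Helper84.FP.Goals

/-!
Project FQ, packet AAA.
-/

set_option autoImplicit false

namespace Pool.Agent.Helper37.FQ.AAA

open Finset Pool.Agent.Helper91.FP Pool.Agent.Helper84.FP

theorem t : S_SIZ → S_CHA → S_AAA := by
  intro hSIZ hCHA n hn hfix
  obtain ⟨hR2, -, h2R, hTOm, hlt⟩ := hSIZ n hn hfix
  have hcha := hCHA n.primeFactors (fun p => n.factorization p) (n.divisors.card + 1)
    (fun p hp => (Nat.prime_of_mem_primeFactors hp).two_le)
    (fun p hp => factorization_pos hp) (by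
      have h1 := prod_eq hn hfix
      have h2 : ∏ p ∈ n.primeFactors, p ^ n.factorization p = n :=
        Nat.prod_factorization_pow_eq_self hn.ne'
      rw [h2, h1]
      ring)
  have h2 : ∏ p ∈ n.primeFactors, p ^ n.factorization p = n :=
    Nat.prod_factorization_pow_eq_self hn.ne'
  simp only [h2] at hcha
  set R := n.primeFactors.card with hR
  set T := n.divisors.card with hT
  have hT4 : 4 ≤ T := le_trans (by
    calc 4 = 2 ^ 2 := by norm_num
      _ ≤ 2 ^ R := Nat.pow_le_pow_right (by norm_num) hR2) h2R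
  have h2RT : 2 * R ≤ T := by
    refine le_trans ?_ h2R
    have : ∀ k : ℕ, 2 ≤ k → 2 * k ≤ 2 ^ k := by
      intro k hk
      induction k, hk using Nat.le_induction with
      | base => norm_num
      | succ k hk ih => rw [pow_succ]; omega
    exact this R hR2
  have hNR : (T + 1) * R ≤ T ^ 2 := by
    nlinarith
  have hn1 : n ≤ T ^ (2 * 6 ^ R) := by
    calc n ≤ (T + 1) * R * n := by
          refine Nat.le_mul_of_pos_left n ?_
          positivity
      _ ≤ ((T + 1) * R) ^ 6 ^ R := hcha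
      _ ≤ (T ^ 2) ^ 6 ^ R := Nat.pow_le_pow_left hNR _
      _ = T ^ (2 * 6 ^ R) := by rw [← pow_mul]
  have hOm : Om n < 4 * 6 ^ R := by
    have h3 : T ^ Om n < 2 ^ Om n * T ^ (2 * 6 ^ R) :=
      lt_of_lt_of_le hlt (Nat.mul_le_mul_left _ hn1)
    have h4 : (T ^ Om n) * (T ^ Om n) < T ^ Om n * T ^ (4 * 6 ^ R) := by
      calc (T ^ Om n) * (T ^ Om n) < (2 ^ Om n * T ^ (2 * 6 ^ R)) * (2 ^ Om n * T ^ (2 * 6 ^ R)) :=
            Nat.mul_self_lt_mul_self h3
        _ = 4 ^ Om n * T ^ (4 * 6 ^ R) := by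
            rw [show (4 : ℕ) = 2 * 2 by norm_num, mul_pow,
              show 2 * 2 * 6 ^ R = 2 * 6 ^ R + 2 * 6 ^ R by ring, pow_add]
            ring
        _ ≤ T ^ Om n * T ^ (4 * 6 ^ R) :=
            Nat.mul_le_mul_right _ (Nat.pow_le_pow_left hT4 _)
    have h5 : T ^ Om n < T ^ (4 * 6 ^ R) := Nat.lt_of_mul_lt_mul_left h4
    exact (Nat.pow_lt_pow_iff_right (by omega)).1 h5
  refine ⟨hOm, ?_⟩
  have hTlt : T < 2 ^ (4 * 6 ^ R) :=
    lt_of_le_of_lt hTOm (Nat.pow_lt_pow_right (by norm_num) hOm)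
  calc n ≤ T ^ (2 * 6 ^ R) := hn1
    _ < (2 ^ (4 * 6 ^ R)) ^ (2 * 6 ^ R) := Nat.pow_lt_pow_left hTlt (by positivity)
    _ = 2 ^ (8 * 36 ^ R) := by
      rw [← pow_mul, show (36 : ℕ) = 6 * 6 by norm_num, mul_pow]
      congr 1
      ring

end Pool.Agent.Helper37.FQ.AAA
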